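import Pool.Agent.T9h98.NK.SpecS

/-!
# Project NK, piece CRO (helper31)
-/

set_option autoImplicit false

open Set
open scoped RealInnerProductSpace

namespace Pool.Agent.T9h31.NK

open Pool.Agent.T9h98.DC Pool.Agent.T9h44.NK Pool.Agent.T9h98.NK

/-- representatives of the orbits of an involution without fixed points -/
theorem exists_half {α : Type*} (A : Finset α) (op : α → α)
    (hoo : ∀ x, op (op x) = x) (hA : ∀ x ∈ A, op x ∈ A ∧ op x ≠ x) :
    ∃ R ⊆ A, (∀ x ∈ R, op x ∉ R) ∧ (∀ x ∈ A, x ∈ R ∨ op x ∈ R) ∧ A.card = 2 * R.card := by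
  classical
  obtain ⟨p, hp⟩ : ∃ p : Finset α → Prop, ∀ R, p R ↔ ∀ x ∈ R, op x ∉ R := ⟨_, fun _ => Iff.rfl⟩
  obtain ⟨R, hR, hmax⟩ := Finset.exists_max_image (A.powerset.filter p) Finset.card
    ⟨∅, by rw [Finset.mem_filter, hp]; simp⟩
  rw [Finset.mem_filter, Finset.mem_powerset, hp] at hR
  have hall : ∀ x ∈ A, x ∈ R ∨ op x ∈ R := by
    intro x hx
    by_contra hcon
    rw [not_or] at hcon
    have h1 : insert x R ∈ A.powerset.filter p := by
      rw [Finset.mem_filter, Finset.mem_powerset, hp]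
      refine ⟨Finset.insert_subset hx hR.1, ?_⟩
      intro z hz
      rw [Finset.mem_insert] at hz
      rw [Finset.mem_insert, not_or]
      rcases hz with rfl | hz
      · exact ⟨(hA z hx).2, hcon.2⟩
      · refine ⟨fun h => ?_, hR.2 z hz⟩
        rw [← h, hoo] at hcon
        exact hcon.2 hz
    have h2 := hmax _ h1
    rw [Finset.card_insert_of_notMem hcon.1] at h2
    omega
  refine ⟨R, hR.1, hR.2, hall, ?_⟩
  have h3 : A = R ∪ R.image op := by
    ext x
    rw [Finset.mem_union, Finset.mem_image]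
    constructor
    · intro hx
      rcases hall x hx with h | h
      · exact Or.inl h
      · exact Or.inr ⟨op x, h, hoo x⟩
    · rintro (h | ⟨y, hy, rfl⟩)
      · exact hR.1 h
      · exact (hA y (hR.1 hy)).1
  have h4 : Disjoint R (R.image op) := by
    rw [Finset.disjoint_left]
    intro x hx hx'
    obtain ⟨y, hy, rfl⟩ := Finset.mem_image.1 hx'
    exact hR.2 y hy hx
  rw [h3, Finset.card_union_of_disjoint h4, Finset.card_image_of_injective]
  · omega
  · intro x y h
    rw [← hoo x, ← hoo y, h]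

theorem ex1 {D : ℕ} (a b s : E D) (t : ℝ) :
    ⟪a - t • s, b - t • s⟫ = ⟪a, b⟫ - t * ⟪a, s⟫ - t * ⟪b, s⟫ + t ^ 2 * ⟪s, s⟫ := by
  rw [inner_sub_left, inner_sub_right, inner_sub_right, real_inner_smul_left, real_inner_smul_right,
    real_inner_smul_left, real_inner_smul_right, real_inner_comm b s]
  ring

theorem ex2 {D : ℕ} (a s : E D) : ⟪s - a, s - a⟫ = ⟪s, s⟫ - 2 * ⟪a, s⟫ + ⟪a, a⟫ := by
  rw [inner_sub_left s a, inner_sub_right s s a, inner_sub_right a s a, real_inner_comm a s]
  ring

/-- a set which is symmetric at `c`, with orthogonal directions -/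
theorem rego_of {D : ℕ} (A : Finset (E D)) (c : E D) (r : ℝ) (hr : 0 < r) (hcard : A.card = 2 * D)
    (hA : ∀ x ∈ A, c + c - x ∈ A) (hn : ∀ x ∈ A, ⟪x - c, x - c⟫ = r ^ 2)
    (ho : ∀ x ∈ A, ∀ y ∈ A, y ≠ x → y ≠ c + c - x → ⟪x - c, y - c⟫ = 0) :
    RegO (convexHull ℝ (A : Set (E D))) := by
  classical
  have hoo : ∀ x, c + c - (c + c - x) = x := fun x => by abel
  obtain ⟨R, hRA, hR1, hR2, hR3⟩ := exists_half A (fun x => c + c - x) hoo fun x hx => by
    refine ⟨hA x hx, fun h => ?_⟩
    have h1 : x - c = 0 := by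
      have h2 : (2 : ℝ) • (x - c) = 0 := by
        rw [two_smul]
        have h3 : c + c - x = x := h
        calc x - c + (x - c) = x - (c + c - x) := by abel
          _ = 0 := by rw [h3, sub_self]
      exact (smul_eq_zero.1 h2).resolve_left two_ne_zero
    have h2 := hn x hx
    rw [h1, inner_zero_left] at h2
    exact (pow_pos hr 2).ne h2
  have hRc : R.card = D := by omega
  let e : Fin D ≃ R := (R.equivFinOfCardEq hRc).symm
  let b0 : Fin D → E D := fun i => r⁻¹ • ((e i : E D) - c)
  have heb : ∀ i, (e i : E D) = c + r • b0 i := by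
    intro i
    show (e i : E D) = c + r • (r⁻¹ • ((e i : E D) - c))
    rw [smul_smul, mul_inv_cancel₀ hr.ne', one_smul]
    abel
  have hon : Orthonormal ℝ b0 := by
    constructor
    · intro i
      show ‖r⁻¹ • ((e i : E D) - c)‖ = 1
      have h1 := hn _ (hRA (e i).2)
      rw [real_inner_self_eq_norm_sq] at h1
      have h2 : ‖(e i : E D) - c‖ = r := (sq_eq_sq₀ (norm_nonneg _) hr.le).1 h1
      rw [norm_smul, h2, norm_inv, Real.norm_of_nonneg hr.le, inv_mul_cancel₀ hr.ne']
    · intro i j hij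
      show ⟪r⁻¹ • ((e i : E D) - c), r⁻¹ • ((e j : E D) - c)⟫ = 0
      have h1 := ho _ (hRA (e i).2) _ (hRA (e j).2)
        (fun h => hij (e.injective (Subtype.ext h)).symm)
        (fun h => hR1 _ (e i).2 (by
          show c + c - (e i : E D) ∈ R
          rw [← h]
          exact (e j).2))
      rw [inner_smul_left, inner_smul_right, h1]
      simp
  rcases Nat.eq_zero_or_pos D with hD0 | hD0
  · subst hD0
    refine ⟨c, r, (stdOrthonormalBasis ℝ (E 0)).reindex (finCongr (by simp)), hr, ?_⟩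
    have h1 : A = ∅ := Finset.card_eq_zero.1 (by omega)
    rw [h1, Finset.coe_empty]
    congr 1
    symm
    rw [Set.eq_empty_iff_forall_notMem]
    rintro x ⟨i, -⟩
    exact i.elim0
  have : Nonempty (Fin D) := ⟨⟨0, hD0⟩⟩
  let B := basisOfOrthonormalOfCardEqFinrank hon (by simp)
  have hB : (B : Fin D → E D) = b0 := coe_basisOfOrthonormalOfCardEqFinrank hon _
  let b : OrthonormalBasis (Fin D) ℝ (E D) := B.toOrthonormalBasis (by rw [hB]; exact hon)
  have hb : (b : Fin D → E D) = b0 := by
    rw [Module.Basis.coe_toOrthonormalBasis, hB]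
  refine ⟨c, r, b, hr, ?_⟩
  congr 1
  ext x
  constructor
  · intro hx
    have hx' : x ∈ A := hx
    rcases hR2 x hx' with h | h
    · refine ⟨e.symm ⟨x, h⟩, Or.inl ?_⟩
      rw [hb, ← heb, e.apply_symm_apply]
    · refine ⟨e.symm ⟨_, h⟩, Or.inr ?_⟩
      have h1 := heb (e.symm ⟨_, h⟩)
      rw [e.apply_symm_apply] at h1
      have h2 : c + c - x = c + r • b0 (e.symm ⟨_, h⟩) := h1
      rw [hb]
      rw [← sub_eq_zero] at h2 ⊢
      rw [← neg_eq_zero, ← h2]
      abel
  · rintro ⟨i, h | h⟩
    · rw [h, hb, ← heb]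
      exact hRA (e i).2
    · have h1 := hA _ (hRA (e i).2)
      rw [heb i] at h1
      have h2 : c + c - (c + r • b0 i) = x := by
        rw [h, hb]
        abel
      rw [h2] at h1
      exact h1

theorem cro (hF : S_FACES) (hC : S_CONN) (hR : S_REL) : S_CRO := by
  classical
  intro D P e hD hP hX
  obtain ⟨f1, -, -, -, f5, -, -, -, f9, -⟩ := hF (D + 1) P hP.1
  have hPne : P.Nonempty := hP.2.mono interior_subset
  obtain ⟨hPP, v, hv⟩ := f5 hPne
  have hvx : ∀ a b, Adj P a b → Vx P a ∧ Vx P b := fun a b h => ⟨(f9 a b h).1, (f9 a b h).2.1⟩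
  have hsymm : ∀ a b, Adj P a b → Adj P b a := fun a b h => (f9 a b h).2.2.1
  have hirr : ∀ a, ¬ Adj P a a := fun a h => h.1 rfl
  have he : 0 < e := (hX v hv).epos
  have he2 : 0 < e ^ 2 := pow_pos he 2
  have hU : Uni P (1 / 2) e := by
    refine ⟨he, by norm_num, fun a y h => (hX a (hvx a y h).1).len y h, ?_⟩
    intro a y y' h
    obtain ⟨s, hs⟩ := (hX a (hvx a y h.1).1).opp
    have h1 := hs y h.1
    refine (h1.2.2.2.2 y' h.2.1 (Ne.symm h.2.2.1) ?_).2
    intro h2
    exact h1.2.2.2.1 (h2 ▸ h)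
  have hrel : ∀ a w y, Cor P a w y → Cor P w a y := by
    intro a w y h
    have h1 := (hR D P (1 / 2) e (by norm_num) hP hU a w y h).1
    have h2 : y + (1 - 2 * (1 / 2 : ℝ)) • (w - a) = y := by norm_num
    rwa [h2] at h1
  have hfin : ∀ a, Vx P a → {y | Adj P a y}.Finite := by
    intro a ha
    apply Set.finite_of_ncard_ne_zero
    rw [(hX a ha).num]
    omega
  have hNF : ∀ a, Vx P a → ∃ N : Finset (E (D + 1)), N.card = 2 * D ∧ ∀ y, y ∈ N ↔ Adj P a y := by
    intro a ha
    refine ⟨(hfin a ha).toFinset, ?_, fun y => by simp⟩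
    rw [← Set.ncard_eq_toFinset_card _ (hfin a ha)]
    exact (hX a ha).num
  obtain ⟨s, hs⟩ := (hX v hv).opp
  obtain ⟨N, hNc, hN⟩ := hNF v hv
  have hlen := (hX v hv).len
  have hI1 : ∀ y, Adj P v y → ⟪y - v, s⟫ = e ^ 2 := by
    intro y hy
    have h1 := (hs y hy).2.2.1
    rw [inner_sub_right, real_inner_self_eq_norm_sq, hlen y hy] at h1
    linarith
  have hI0 : ∀ y, Adj P v y → ⟪y - v, y - v⟫ = e ^ 2 := by
    intro y hy
    rw [real_inner_self_eq_norm_sq, hlen y hy]
  have hI2 : ∀ y y', Adj P v y → Adj P v y' → y' ≠ y → y' ≠ v + s - (y - v) →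
      ⟪y - v, y' - v⟫ = 1 / 2 * e ^ 2 := fun y y' hy hy' h1 h2 =>
    ((hs y hy).2.2.2.2 y' hy' h1 h2).2
  have hI3 : ∀ y y', Adj P v y → Adj P v y' → y' ≠ y → y' ≠ v + s - (y - v) → Adj P y y' :=
    fun y y' hy hy' h1 h2 => (hrel _ _ _ ((hs y hy).2.2.2.2 y' hy' h1 h2).1).2.1
  have hoo : ∀ x, v + s - (v + s - (x - v) - v) = x := fun x => by abel
  -- a third neighbour
  have hthird : ∀ y, Adj P v y → ∃ y', Adj P v y' ∧ y' ≠ y ∧ y' ≠ v + s - (y - v) := by
    intro y hy
    by_contra hcon
    push Not at hcon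
    have h1 : N ⊆ {y, v + s - (y - v)} := by
      intro z hz
      rw [Finset.mem_insert, Finset.mem_singleton]
      by_cases h : z = y
      · exact Or.inl h
      · exact Or.inr (hcon z ((hN z).1 hz) h)
    have h2 := (Finset.card_le_card h1).trans Finset.card_le_two
    omega
  have hsne : s ≠ 0 := by
    have h1 : N.Nonempty := by
      rw [← Finset.card_pos]
      omega
    obtain ⟨y, hy⟩ := h1
    intro h
    have h2 := hI1 y ((hN y).1 hy)
    rw [h, inner_zero_right] at h2
    exact he2.ne h2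
  have hq : ∀ y, Adj P v y → Adj P y (v + s) := by
    intro y hy
    obtain ⟨t, ht⟩ := (hX y (hvx _ _ hy).2).opp
    obtain ⟨y', hy', h1, h2⟩ := hthird y hy
    have h3 := hI3 y y' hy hy' h1 h2
    have hoy' := (hs y' hy').1
    have h4 : v + s - (y' - v) ≠ y := by
      intro h
      apply h2
      rw [← h, hoo]
    have h5 : v + s - (y' - v) ≠ v + s - (y - v) := by
      intro h
      apply h1
      rw [← hoo y', h, hoo]
    have h6 := hI3 y _ hy hoy' h4 h5
    have h7 : ⟪y' - y, v + s - (y' - v) - y⟫ = 0 := by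
      have e1 : y' - y = (y' - v) - (y - v) := by abel
      have e2 : v + s - (y' - v) - y = s - (y' - v) - (y - v) := by abel
      have e3 := hI2 y y' hy hy' h1 h2
      rw [e1, e2]
      simp only [inner_sub_left (𝕜 := ℝ) (y' - v) (y - v), inner_sub_right (𝕜 := ℝ) _ _ (y - v),
        inner_sub_right (𝕜 := ℝ) _ s (y' - v)]
      rw [hI1 y' hy', hI0 y' hy', hI1 y hy, hI0 y hy, real_inner_comm, e3]
      rw [real_inner_comm] at e3
      linarith
    have h8 : v + s - (y' - v) = y + t - (y' - y) := by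
      by_contra hne
      have h9 := ((ht y' h3).2.2.2.2 _ h6 (hs y' hy').2.1 hne).2
      rw [h7] at h9
      linarith
    have h10 := (ht v (hsymm _ _ hy)).1
    have h11 : y + t - (v - y) = v + s := by
      have h12 : t = v + s - (y' - v) - y + (y' - y) := by
        rw [h8]
        abel
      rw [h12]
      abel
    rwa [h11] at h10
  have hvq : v ≠ v + s := by
    intro h
    apply hsne
    have : v + 0 = v + s := by rw [add_zero]; exact h
    exact (add_left_cancel this).symm
  have hqN : ¬ Adj P v (v + s) := by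
    intro h
    have h1 := (hs _ h).1
    have h2 : v + s - (v + s - v) = v := by abel
    rw [h2] at h1
    exact hirr v h1
  have hqv : Vx P (v + s) := by
    obtain ⟨y, hy⟩ : N.Nonempty := by
      rw [← Finset.card_pos]
      omega
    exact (hvx _ _ (hq y ((hN y).1 hy))).2
  -- neighbours
  have hNy : ∀ y, Adj P v y → ∀ w, Adj P y w → w = v ∨ w = v + s ∨ Adj P v w := by
    intro y hy w hw
    obtain ⟨M, hMc, hM⟩ := hNF y (hvx _ _ hy).2
    have hoy := (hs y hy)
    have h1 : insert v (insert (v + s) ((N.erase y).erase (v + s - (y - v)))) ⊆ M := by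
      intro z hz
      rw [Finset.mem_insert, Finset.mem_insert, Finset.mem_erase, Finset.mem_erase] at hz
      rw [hM]
      rcases hz with rfl | rfl | ⟨h2, h3, h4⟩
      · exact hsymm _ _ hy
      · exact hq y hy
      · exact hI3 y z hy ((hN z).1 h4) h3 h2
    have h2 : (insert v (insert (v + s) ((N.erase y).erase (v + s - (y - v))))).card = 2 * D := by
      rw [Finset.card_insert_of_notMem, Finset.card_insert_of_notMem, Finset.card_erase_of_mem,
        Finset.card_erase_of_mem, hNc]
      · omega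
      · exact (hN y).2 hy
      · rw [Finset.mem_erase]
        exact ⟨hoy.2.1, (hN _).2 hoy.1⟩
      · rw [Finset.mem_erase, Finset.mem_erase]
        rintro ⟨-, -, h⟩
        exact hqN ((hN _).1 h)
      · rw [Finset.mem_insert, Finset.mem_erase, Finset.mem_erase]
        rintro (h | ⟨-, -, h⟩)
        · exact hvq h
        · exact hirr v ((hN _).1 h)
    have h3 := Finset.eq_of_subset_of_card_le h1 (by rw [hMc, h2])
    have h4 : w ∈ M := (hM w).2 hw
    rw [← h3, Finset.mem_insert, Finset.mem_insert, Finset.mem_erase, Finset.mem_erase] at h4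
    rcases h4 with h | h | ⟨-, -, h⟩
    · exact Or.inl h
    · exact Or.inr (Or.inl h)
    · exact Or.inr (Or.inr ((hN w).1 h))
  have hNq : ∀ w, Adj P (v + s) w → Adj P v w := by
    intro w hw
    obtain ⟨M, hMc, hM⟩ := hNF (v + s) hqv
    have h1 : N ⊆ M := fun z hz => (hM z).2 (hsymm _ _ (hq z ((hN z).1 hz)))
    have h2 := Finset.eq_of_subset_of_card_le h1 (by rw [hMc, hNc])
    have h3 : w ∈ M := (hM w).2 hw
    rw [← h2] at h3
    exact (hN w).1 h3
  have hall : ∀ w, Vx P w → w = v ∨ w = v + s ∨ Adj P v w := by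
    apply hC D P hP {w | w = v ∨ w = v + s ∨ Adj P v w} ⟨v, Or.inl rfl, hv⟩
    rintro u (rfl | rfl | hu) w - hw
    · exact Or.inr (Or.inr hw)
    · exact Or.inr (Or.inr (hNq w hw))
    · exact hNy u hu w hw
  let A : Finset (E (D + 1)) := insert v (insert (v + s) N)
  have hAmem : ∀ w, w ∈ A ↔ (w = v ∨ w = v + s ∨ Adj P v w) := by
    intro w
    show w ∈ insert v (insert (v + s) N) ↔ _
    rw [Finset.mem_insert, Finset.mem_insert, hN]
  have hAcard : A.card = 2 * (D + 1) := by
    show (insert v (insert (v + s) N)).card = _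
    rw [Finset.card_insert_of_notMem, Finset.card_insert_of_notMem, hNc]
    · ring
    · exact fun h => hqN ((hN _).1 h)
    · rw [Finset.mem_insert]
      rintro (h | h)
      · exact hvq h
      · exact hirr v ((hN _).1 h)
  have hPA : P = convexHull ℝ (A : Set (E (D + 1))) := by
    have h1 := (f1 P hPP).2
    have h2 : {w | Vx P w ∧ w ∈ P} = (A : Set (E (D + 1))) := by
      ext w
      constructor
      · rintro ⟨h3, -⟩
        exact (hAmem w).2 (hall w h3)
      · intro h3
        have h4 : Vx P w := by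
          rcases (hAmem w).1 h3 with rfl | rfl | h
          · exact hv
          · exact hqv
          · exact (hvx _ _ h).2
        exact ⟨h4, h4.2.subset (mem_singleton _)⟩
    rw [h2] at h1
    exact h1
  have hss : ⟪s, s⟫ = 2 * e ^ 2 := by
    obtain ⟨y, hy⟩ : N.Nonempty := by
      rw [← Finset.card_pos]
      omega
    have hy' := (hN y).1 hy
    have h1 := hI0 _ (hs y hy').1
    have h2 : v + s - (y - v) - v = s - (y - v) := by abel
    rw [h2, ex2, hI0 y hy', hI1 y hy'] at h1
    linarith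
  have hr2 : (e / √2) ^ 2 = e ^ 2 / 2 := by
    rw [div_pow, Real.sq_sqrt (by norm_num)]
  rw [hPA]
  have hc2 : (v + (1 / 2 : ℝ) • s) + (v + (1 / 2 : ℝ) • s) = v + (v + s) := by
    have : (1 / 2 : ℝ) • s + (1 / 2 : ℝ) • s = s := by
      rw [← add_smul]
      norm_num
    calc (v + (1 / 2 : ℝ) • s) + (v + (1 / 2 : ℝ) • s)
        = v + v + ((1 / 2 : ℝ) • s + (1 / 2 : ℝ) • s) := by abel
      _ = v + (v + s) := by rw [this]; abel
  have hd1 : v - (v + (1 / 2 : ℝ) • s) = -((1 / 2 : ℝ) • s) := by abel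
  have hd2 : v + s - (v + (1 / 2 : ℝ) • s) = (1 / 2 : ℝ) • s := by
    have : s = (1 / 2 : ℝ) • s + (1 / 2 : ℝ) • s := by
      rw [← add_smul]
      norm_num
    calc v + s - (v + (1 / 2 : ℝ) • s) = s - (1 / 2 : ℝ) • s := by abel
      _ = (1 / 2 : ℝ) • s := by
        nth_rw 1 [this]
        abel
  have hd3 : ∀ y, y - (v + (1 / 2 : ℝ) • s) = (y - v) - (1 / 2 : ℝ) • s := fun y => by abel
  apply rego_of A (v + (1 / 2 : ℝ) • s) (e / √2) (div_pos he (by positivity)) hAcard
  · intro x hx
    rw [hc2, hAmem]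
    rcases (hAmem x).1 hx with rfl | rfl | h
    · right
      left
      abel
    · left
      abel
    · right
      right
      have h1 : v + (v + s) - x = v + s - (x - v) := by abel
      rw [h1]
      exact (hs x h).1
  · intro x hx
    rw [hr2]
    rcases (hAmem x).1 hx with rfl | rfl | h
    · rw [hd1, inner_neg_left, inner_neg_right, inner_smul_left, inner_smul_right, hss]
      simp only [conj_trivial]
      ring
    · rw [hd2, inner_smul_left, inner_smul_right, hss]
      simp only [conj_trivial]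
      ring
    · rw [hd3, ex1, hss, hI0 x h, hI1 x h]
      ring
  · intro x hx y hy hxy hxy'
    rw [hc2] at hxy'
    have key : ∀ z, Adj P v z → ⟪z - v - (1 / 2 : ℝ) • s, (1 / 2 : ℝ) • s⟫ = 0 := by
      intro z hz
      rw [inner_smul_right, inner_sub_left, inner_smul_left, hss, hI1 z hz]
      simp only [conj_trivial]
      ring
    rcases (hAmem x).1 hx with rfl | rfl | h <;> rcases (hAmem y).1 hy with rfl | rfl | h'
    · exact absurd rfl hxy
    · exact absurd (by abel) hxy'
    · rw [hd1, hd3 y, inner_neg_left, real_inner_comm, key y h', neg_zero]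
    · exact absurd (by abel) hxy'
    · exact absurd rfl hxy
    · rw [hd2, hd3 y, real_inner_comm, key y h']
    · rw [hd1, hd3 x, inner_neg_right, key x h, neg_zero]
    · rw [hd2, hd3 x, key x h]
    · have h1 : y ≠ v + s - (x - v) := by
        intro h2
        apply hxy'
        rw [h2]
        abel
      have h2 := hI2 x y h h' hxy h1
      rw [hd3 x, hd3 y, ex1, hss, h2, hI1 x h, hI1 y h']
      ring

end Pool.Agent.T9h31.NK
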