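import Pool.Agent.T9h44.NK.SpecA

/-!
# Project NK, piece NB (helper31)
-/

set_option autoImplicit false

open Set
open scoped RealInnerProductSpace

namespace Pool.Agent.T9h31.NK

open Pool.Agent.T9h98.DC Pool.Agent.T9h44.NK

theorem nb (hF : S_FACES) (hV : S_VF) : S_NB := by
  intro d P v n ι hP hv hS hn ho
  obtain ⟨hQ, hV2, hV3, hV4⟩ := hV d P v n ι hP hv hS hn ho
  obtain ⟨-, -, -, -, -, -, -, f8, f9, f10⟩ := hF (d + 1) P hP.1
  obtain ⟨-, -, -, -, -, -, g7, g8, g9, g10⟩ := hF d (fig v n ι P) hQ.1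
  have hnn : 0 < ⟪n, n⟫ := by
    rw [real_inner_self_eq_norm_sq]
    exact pow_pos (norm_pos_iff.2 hn) 2
  have hin : ∀ x, ⟪n, n + ι x⟫ = ⟪n, n⟫ := fun x => by rw [inner_add_right, ho x, add_zero]
  have hne : ∀ x, n + ι x ≠ 0 := fun x h => by
    have := hin x
    rw [h, inner_zero_right] at this
    exact hnn.ne this
  -- points of the figure of an edge
  have hpr : ∀ y x, x ∈ fig v n ι (segment ℝ v y) → Pr v n ι y x := by
    rintro y x ⟨t, ht, a, b, ha, hb, hab, h⟩
    have h1 : b • (y - v) = t • (n + ι x) := by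
      have : a • v + b • y - v = t • (n + ι x) := by rw [h]; abel
      rw [← this, smul_sub]
      have ha' : a = 1 - b := by linarith
      rw [ha', sub_smul, one_smul]
      abel
    have hb0 : b ≠ 0 := by
      rintro rfl
      rw [zero_smul] at h1
      exact (smul_ne_zero ht.ne' (hne x)) h1.symm
    have hbp : 0 < b := lt_of_le_of_ne hb (Ne.symm hb0)
    refine ⟨b⁻¹ * t, mul_pos (inv_pos.2 hbp) ht, ?_⟩
    rw [mul_smul, ← h1, smul_smul, inv_mul_cancel₀ hb0, one_smul]
  -- uniqueness
  have huniq : ∀ y x x', Pr v n ι y x → Pr v n ι y x' → x = x' := by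
    rintro y x x' ⟨t, ht, h⟩ ⟨t', ht', h'⟩
    have h1 : t • (n + ι x) = t' • (n + ι x') := by rw [← h, ← h']
    have h2 : t = t' := by
      have h3 := congrArg (fun z => ⟪n, z⟫) h1
      simp only [inner_smul_right, hin] at h3
      exact mul_right_cancel₀ hnn.ne' h3
    subst h2
    have h4 := smul_right_injective _ ht.ne' h1
    exact ι.injective (add_left_cancel h4)
  have hedge : ∀ y x, Adj P v y → Pr v n ι y x →
      fig v n ι (segment ℝ v y) = {x} ∧ Vx (fig v n ι P) x := by
    intro y x hy hx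
    have hFne : segment ℝ v y ≠ {v} := by
      intro h
      have : y ∈ segment ℝ v y := right_mem_segment ℝ v y
      rw [h] at this
      exact hy.1 (mem_singleton_iff.1 this).symm
    obtain ⟨h1, h2⟩ := hV2 _ hy.2 (left_mem_segment ℝ v y) hFne
    have h3 := (f9 v y hy).2.2.2
    rw [h3] at h2
    obtain ⟨x', hx'⟩ := g7 _ h1 (by omega)
    have hx'' : x' ∈ fig v n ι (segment ℝ v y) := by rw [hx']; exact mem_singleton _
    have hxx : x = x' := huniq y x x' hx (hpr y x' hx'')
    subst hxx
    refine ⟨hx', ?_⟩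
    show IsFace _ {x}
    rw [← hx']
    exact h1
  have hex : ∀ y, Adj P v y → ∃ x, Vx (fig v n ι P) x ∧ Pr v n ι y x := by
    intro y hy
    have hFne : segment ℝ v y ≠ {v} := by
      intro h
      have : y ∈ segment ℝ v y := right_mem_segment ℝ v y
      rw [h] at this
      exact hy.1 (mem_singleton_iff.1 this).symm
    obtain ⟨h1, h2⟩ := hV2 _ hy.2 (left_mem_segment ℝ v y) hFne
    have h3 := (f9 v y hy).2.2.2
    rw [h3] at h2
    obtain ⟨x', hx'⟩ := g7 _ h1 (by omega)
    have hx'' : x' ∈ fig v n ι (segment ℝ v y) := by rw [hx']; exact mem_singleton _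
    exact ⟨x', (hedge y x' hy (hpr y x' hx'')).2, hpr y x' hx''⟩
  have hvtx : ∀ y y', Adj P v y → Adj P v y' → ∀ t t' : ℝ, 0 < t → 0 < t' → ∀ x,
      y - v = t • (n + ι x) → y' - v = t' • (n + ι x) → t' ≤ t → y = y' := by
    intro y y' hy hy' t t' ht ht' x h h' hle
    have hmem : y' ∈ segment ℝ v y := by
      refine ⟨1 - t' / t, t' / t, ?_, ?_, by ring, ?_⟩
      · have := (div_le_one ht).2 hle
        linarith
      · exact (div_pos ht' ht).le
      · have h1 : (t' / t) • (y - v) = y' - v := by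
          rw [h, h', smul_smul, div_mul_cancel₀ _ ht.ne']
        have h2 : y' = v + (t' / t) • (y - v) := by rw [h1]; abel
        rw [h2, smul_sub, sub_smul, one_smul]
        abel
    rcases f10 v y hy y' (f9 v y' hy').2.1 hmem with h1 | h1
    · exact absurd h1.symm hy'.1
    · exact h1.symm
  have hiff : ∀ y y' x x', Adj P v y → Adj P v y' → Pr v n ι y x → Pr v n ι y' x' →
      (x = x' ↔ y = y') := by
    intro y y' x x' hy hy' hx hx'
    constructor
    · rintro rfl
      obtain ⟨t, ht, h⟩ := hx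
      obtain ⟨t', ht', h'⟩ := hx'
      rcases le_total t' t with hle | hle
      · exact hvtx y y' hy hy' t t' ht ht' x h h' hle
      · exact (hvtx y' y hy' hy t' t ht' ht x h' h hle).symm
    · rintro rfl
      exact huniq y x x' hx hx'
  refine ⟨hex, ?_, hiff, ?_⟩
  · intro x hx
    obtain ⟨F, h1, h2, h3, h4⟩ := hV3 {x} hx
    have h5 := (hV2 F h1 h2 h3).2
    have h6 : dm (fig v n ι F) = 0 := by
      rw [h4]
      simp [dm]
    rw [h6] at h5
    obtain ⟨a, b, hab, hFab⟩ := f8 F h1 (by omega)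
    have h7 : ∃ y, Adj P v y ∧ F = segment ℝ v y := by
      rcases f10 a b hab v hv (by rw [← hFab]; exact h2) with h | h
      · subst h
        exact ⟨b, hab, hFab⟩
      · subst h
        exact ⟨a, (f9 a v hab).2.2.1, by rw [hFab, segment_symm]⟩
    obtain ⟨y, hy, rfl⟩ := h7
    refine ⟨y, hy, hpr y x ?_⟩
    rw [h4]
    exact mem_singleton x
  · intro y y' x x' hy hy' hx hx'
    constructor
    · intro hA
      refine ⟨fun h => hA.1 ((hiff y y' x x' hy hy' hx hx').2 h), ?_⟩
      obtain ⟨F, h1, h2, h3, h4⟩ := hV3 _ hA.2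
      have h5 := (hV2 F h1 h2 h3).2
      rw [h4, (g9 x x' hA).2.2.2] at h5
      have key : ∀ z u, Adj P v z → Pr v n ι z u → u ∈ segment ℝ x x' → z ∈ F := by
        intro z u hz hu hm
        have h6 := (hedge z u hz hu).1
        have h7 : segment ℝ v z ⊆ F := by
          apply hV4 _ _ hz.2 h1 (left_mem_segment ℝ v z) h2
          rw [h6, h4]
          exact singleton_subset_iff.2 hm
        exact h7 (right_mem_segment ℝ v z)
      exact ⟨F, h1, by omega, h2, key y x hy hx (left_mem_segment ℝ x x'),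
        key y' x' hy' hx' (right_mem_segment ℝ x x')⟩
    · rintro ⟨hne', T, hT, hT2, hvT, hyT, hyT'⟩
      have hTne : T ≠ {v} := by
        intro h
        rw [h] at hyT
        exact hy.1 (mem_singleton_iff.1 hyT).symm
      obtain ⟨h1, h2⟩ := hV2 T hT hvT hTne
      obtain ⟨a, b, hab, hTab⟩ := g8 _ h1 (by omega)
      have hmem : ∀ z u, Pr v n ι z u → z ∈ T → u ∈ segment ℝ a b := by
        rintro z u ⟨t, ht, h⟩ hz
        rw [← hTab]
        refine ⟨t, ht, ?_⟩
        rw [← h]
        simpa using hz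
      have hxx : x ≠ x' := fun h => hne' ((hiff y y' x x' hy hy' hx hx').1 h)
      have c1 := g10 a b hab x (hedge y x hy hx).2 (hmem y x hx hyT)
      have c2 := g10 a b hab x' (hedge y' x' hy' hx').2 (hmem y' x' hx' hyT')
      rcases c1 with rfl | rfl <;> rcases c2 with rfl | rfl
      · exact absurd rfl hxx
      · exact hab
      · exact (g9 _ _ hab).2.2.1
      · exact absurd rfl hxx

end Pool.Agent.T9h31.NK
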