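import Pool.Agent.T9h44.NK.SpecA
import Pool.Agent.T9h44.NK.SpecB

/-!
# Project NK, piece SS3 (helper31)
-/

set_option autoImplicit false

open Set
open scoped RealInnerProductSpace

namespace Pool.Agent.T9h31.NK

open Pool.Agent.T9h98.DC Pool.Agent.T9h44.NK

/-- the vertices of the cube at `v0` with edges `s • b i` -/
noncomputable def pt {D : ℕ} (v0 : E D) (s : ℝ) (b : Fin D → E D) (t : Fin D → Bool) : E D :=
  v0 + s • ∑ i, (if t i then (1 : ℝ) else 0) • b i

/-- change of one coordinate -/
def flip {D : ℕ} (j : Fin D) (t : Fin D → Bool) : Fin D → Bool := Function.update t j (!t j)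

theorem flip_flip {D : ℕ} (j : Fin D) (t : Fin D → Bool) : flip j (flip j t) = t := by
  unfold flip
  funext i
  by_cases h : i = j
  · subst h
    simp
  · simp [h]

theorem flip_inj {D : ℕ} (t : Fin D → Bool) {k l : Fin D} (h : flip k t = flip l t) : k = l := by
  by_contra hkl
  have h1 := congrFun h k
  unfold flip at h1
  rw [Function.update_self, Function.update_of_ne hkl] at h1
  cases h2 : t k <;> simp [h2] at h1

theorem pt_flip {D : ℕ} (v0 : E D) (s : ℝ) (b : Fin D → E D) (t : Fin D → Bool) (j : Fin D) :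
    pt v0 s b (flip j t) = pt v0 s b t + (if t j then -s else s) • b j := by
  unfold pt flip
  have h : ∀ i, (if (Function.update t j (!t j)) i then (1 : ℝ) else 0) • b i =
      (if t i then (1 : ℝ) else 0) • b i +
        (if i = j then (if t j then (-1 : ℝ) else 1) • b j else 0) := by
    intro i
    by_cases h : i = j
    · subst h
      cases h2 : t i <;> simp
    · simp [h]
  rw [Finset.sum_congr rfl fun i _ => h i, Finset.sum_add_distrib, Finset.sum_ite_eq' Finset.univ j,
    if_pos (Finset.mem_univ j), smul_add, smul_smul, add_assoc]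
  congr 2
  split_ifs <;> simp

theorem pt_flip2 {D : ℕ} (v0 : E D) (s : ℝ) (b : Fin D → E D) (t : Fin D → Bool) {j k : Fin D}
    (h : j ≠ k) : pt v0 s b (flip k (flip j t)) =
      pt v0 s b (flip j t) + pt v0 s b (flip k t) - pt v0 s b t := by
  have h1 : flip j t k = t k := by
    unfold flip
    rw [Function.update_of_ne h.symm]
  rw [pt_flip v0 s b (flip j t) k, pt_flip v0 s b t k, h1]
  abel

/-- the hull of the `pt` is the cube -/
theorem cube {D : ℕ} (v0 : E D) (s : ℝ) (hs : 0 < s) (b : OrthonormalBasis (Fin D) ℝ (E D)) :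
    convexHull ℝ (range (pt v0 s b)) =
      {x | ∀ i, |⟪x - (v0 + (s / 2) • ∑ j, b j), b i⟫| ≤ s / 2} := by
  have hsum : ∀ (f : Fin D → ℝ) i, ⟪∑ j, f j • b j, b i⟫ = f i := by
    intro f i
    rw [sum_inner]
    rw [Finset.sum_eq_single i]
    · rw [inner_smul_left, real_inner_self_eq_norm_sq, b.norm_eq_one]
      simp
    · intro j _ hj
      rw [inner_smul_left, b.inner_eq_ite, if_neg hj, mul_zero]
    · intro h
      exact absurd (Finset.mem_univ i) h
  have hsum1 : ∀ i, ⟪∑ j, b j, b i⟫ = 1 := by
    intro i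
    have := hsum (fun _ => 1) i
    simpa using this
  apply Subset.antisymm
  · apply convexHull_min
    · rintro _ ⟨t, rfl⟩ i
      have h : pt v0 s b t - (v0 + (s / 2) • ∑ j, b j) =
          s • (∑ j, (if t j then (1 : ℝ) else 0) • b j) - (s / 2) • ∑ j, b j := by
        unfold pt
        abel
      rw [h, inner_sub_left, inner_smul_left, inner_smul_left, hsum, hsum1]
      simp only [conj_trivial]
      split_ifs
      · rw [abs_le]
        constructor <;> linarith
      · rw [abs_le]
        constructor <;> linarith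
    · intro x hx y hy a c ha hc hac i
      have h : a • x + c • y - (v0 + (s / 2) • ∑ j, b j) =
          a • (x - (v0 + (s / 2) • ∑ j, b j)) + c • (y - (v0 + (s / 2) • ∑ j, b j)) := by
        have hc' : c = 1 - a := by linarith
        rw [hc', smul_sub, smul_sub, sub_smul, sub_smul, one_smul, one_smul]
        abel
      rw [h, inner_add_left, inner_smul_left, inner_smul_left]
      simp only [conj_trivial]
      have h1 := abs_le.1 (hx i)
      have h2 := abs_le.1 (hy i)
      rw [abs_le]
      constructor <;> nlinarith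
  · intro x hx
    let L : (Fin D → ℝ) →ₗ[ℝ] E D := ∑ i, (LinearMap.proj i).smulRight (s • b i)
    let f : (Fin D → ℝ) →ᵃ[ℝ] E D := L.toAffineMap + AffineMap.const ℝ _ v0
    have hL : ∀ τ, L τ = ∑ i, τ i • (s • b i) := by
      intro τ
      simp [L]
    have hf : ∀ τ, f τ = v0 + s • ∑ i, τ i • b i := by
      intro τ
      have : f τ = L τ + v0 := rfl
      rw [this, hL, add_comm, Finset.smul_sum]
      congr 1
      apply Finset.sum_congr rfl
      intro i _
      rw [smul_comm]
    let τ : Fin D → ℝ := fun i => ⟪b i, x - v0⟫ / s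
    have hτx : f τ = x := by
      rw [hf]
      have h1 : s • ∑ i, τ i • b i = x - v0 := by
        rw [Finset.smul_sum]
        conv_rhs => rw [← b.sum_repr' (x - v0)]
        apply Finset.sum_congr rfl
        intro i _
        rw [smul_smul]
        congr 1
        show s * (⟪b i, x - v0⟫ / s) = _
        field_simp
      rw [h1]
      abel
    have hτ : τ ∈ convexHull ℝ (univ.pi fun _ : Fin D => ({0, 1} : Set ℝ)) := by
      apply mem_convexHull_pi
      intro i _
      rw [convexHull_pair, segment_eq_Icc zero_le_one]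
      have h1 := abs_le.1 (hx i)
      have h2 : x - (v0 + (s / 2) • ∑ j, b j) = (x - v0) - (s / 2) • ∑ j, b j := by abel
      rw [h2, inner_sub_left, inner_smul_left, hsum1] at h1
      simp only [conj_trivial] at h1
      rw [real_inner_comm] at h1
      constructor
      · show 0 ≤ ⟪b i, x - v0⟫ / s
        apply div_nonneg _ hs.le
        linarith [h1.1]
      · show ⟪b i, x - v0⟫ / s ≤ 1
        rw [div_le_one hs]
        linarith [h1.2]
    have h3 : f τ ∈ f '' convexHull ℝ (univ.pi fun _ : Fin D => ({0, 1} : Set ℝ)) := ⟨τ, hτ, rfl⟩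
    rw [AffineMap.image_convexHull, hτx] at h3
    apply convexHull_mono _ h3
    rintro _ ⟨u, hu, rfl⟩
    classical
    refine ⟨fun i => decide (u i = 1), ?_⟩
    rw [hf]
    unfold pt
    congr 2
    apply Finset.sum_congr rfl
    intro i _
    have hui := hu i (mem_univ i)
    rcases hui with h | h
    · simp [h]
    · rw [mem_singleton_iff] at h
      simp [h]

theorem pt_inj {D : ℕ} (v0 : E D) (s : ℝ) (hs : 0 < s) (b : OrthonormalBasis (Fin D) ℝ (E D)) :
    Function.Injective (pt v0 s b) := by
  intro t t' h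
  have h1 : ∑ i, (if t i then (1 : ℝ) else 0) • b i = ∑ i, (if t' i then (1 : ℝ) else 0) • b i := by
    unfold pt at h
    exact smul_right_injective _ hs.ne' (add_left_cancel h)
  have h2 := b.toBasis.linearIndependent
  funext i
  have h3 : (fun i => if t i then (1 : ℝ) else 0) = fun i => if t' i then (1 : ℝ) else 0 := by
    rw [Fintype.linearIndependent_iff] at h2
    funext j
    have h4 := h2 (fun i => (if t i then (1 : ℝ) else 0) - if t' i then (1 : ℝ) else 0) (by
      simp only [OrthonormalBasis.coe_toBasis, sub_smul, Finset.sum_sub_distrib]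
      rw [h1, sub_self]) j
    simpa [sub_eq_zero] using h4
  have h5 : (if t i then (1 : ℝ) else 0) = if t' i then (1 : ℝ) else 0 := congrFun h3 i
  cases h6 : t i <;> cases h7 : t' i <;> simp [h6, h7] at h5 ⊢

theorem ss3 (hF : S_FACES) (hC : S_CONN) (hM : S_M3) : S_SS3 := by
  intro d P s κ hP hS hκ
  obtain ⟨hs, hlen, hX, hN⟩ := hS
  obtain ⟨f1, f2, f3, f4, f5, f6, f7, f8, f9, f10⟩ := hF (d + 5) P hP.1
  have hPne : P.Nonempty := hP.2.mono interior_subset
  obtain ⟨hPP, v0, hv0⟩ := f5 hPne
  obtain ⟨X0, hX0, hX0m⟩ := hX v0 hv0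
  let e : Fin (d + 5) ≃ X0 := (X0.equivFinOfCardEq hX0).symm
  let y : Fin (d + 5) → E (d + 5) := fun i => (e i : E (d + 5))
  have hyadj : ∀ i, Adj P v0 (y i) := fun i => (hX0m _).1 (e i).2
  have hyinj : Function.Injective y := fun i j h => e.injective (Subtype.ext h)
  let b0 : Fin (d + 5) → E (d + 5) := fun i => s⁻¹ • (y i - v0)
  have hyb : ∀ i, y i = v0 + s • b0 i := by
    intro i
    show y i = v0 + s • (s⁻¹ • (y i - v0))
    rw [smul_smul, mul_inv_cancel₀ hs.ne', one_smul]
    abel
  have hon : Orthonormal ℝ b0 := by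
    constructor
    · intro i
      show ‖s⁻¹ • (y i - v0)‖ = 1
      have h1 : ‖y i - v0‖ = s := by
        rw [← dist_eq_norm, dist_comm]
        exact hlen v0 (y i) (hyadj i)
      rw [norm_smul, h1, norm_inv, Real.norm_of_nonneg hs.le, inv_mul_cancel₀ hs.ne']
    · intro i j hij
      show ⟪s⁻¹ • (y i - v0), s⁻¹ • (y j - v0)⟫ = 0
      have h1 := (hN v0 (y i) (y j) (hyadj i) (hyadj j) fun h => hij (hyinj h)).1
      rw [hκ v0 hv0, zero_mul] at h1
      rw [inner_smul_left, inner_smul_right, h1]
      simp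
  let B := basisOfOrthonormalOfCardEqFinrank hon (by simp)
  have hB : (B : Fin (d + 5) → E (d + 5)) = b0 := coe_basisOfOrthonormalOfCardEqFinrank hon _
  let b : OrthonormalBasis (Fin (d + 5)) ℝ (E (d + 5)) := B.toOrthonormalBasis (by rw [hB]; exact hon)
  have hb : (b : Fin (d + 5) → E (d + 5)) = b0 := by
    rw [Module.Basis.coe_toOrthonormalBasis, hB]
  have hyb' : ∀ i, y i = v0 + s • b i := by
    intro i
    rw [hb]
    exact hyb i
  let A : Set (E (d + 5)) := {v | ∃ t, v = pt v0 s b t ∧ Vx P v ∧
    ∀ w, Adj P v w ↔ ∃ j, w = pt v0 s b (flip j t)}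
  have hpinj := pt_inj v0 s hs b
  have hA0 : v0 ∈ A := by
    have h0 : pt v0 s b (fun _ => false) = v0 := by simp [pt]
    refine ⟨fun _ => false, h0.symm, hv0, fun w => ?_⟩
    have h1 : ∀ j, pt v0 s b (flip j fun _ => false) = y j := by
      intro j
      rw [pt_flip, h0, hyb' j]
      simp
    constructor
    · intro hw
      have h2 : w ∈ X0 := (hX0m w).2 hw
      refine ⟨e.symm ⟨w, h2⟩, ?_⟩
      rw [h1]
      show w = ((e (e.symm ⟨w, h2⟩) : X0) : E (d + 5))
      rw [e.apply_symm_apply]
    · rintro ⟨j, rfl⟩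
      rw [h1]
      exact hyadj j
  have hstep : ∀ v ∈ A, ∀ w, Adj P v w → w ∈ A := by
    rintro v ⟨t, hvt, hv, hvn⟩ w hw
    obtain ⟨j, hj⟩ := (hvn w).1 hw
    refine ⟨flip j t, hj, (f9 v w hw).2.1, ?_⟩
    obtain ⟨Xw, hXw, hXwm⟩ := hX w (f9 v w hw).2.1
    have hinj : Function.Injective fun k => pt v0 s b (flip k (flip j t)) :=
      fun k l h => flip_inj _ (hpinj h)
    have hsub : Finset.univ.image (fun k => pt v0 s b (flip k (flip j t))) ⊆ Xw := by
      intro z hz
      obtain ⟨k, -, rfl⟩ := Finset.mem_image.1 hz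
      rw [hXwm]
      by_cases hkj : k = j
      · subst hkj
        simp only [flip_flip]
        rw [← hvt]
        exact (f9 v w hw).2.2.1
      · have h1 : Adj P v (pt v0 s b (flip k t)) := (hvn _).2 ⟨k, rfl⟩
        have h2 : w ≠ pt v0 s b (flip k t) := by
          rw [hj]
          exact fun h => hkj (flip_inj _ (hpinj h)).symm
        obtain ⟨h3, T, hT, hT2, hvT, hwT, hzT⟩ := hN v w _ hw h1 h2
        have h4 := hM (d + 4) P T s 0 hP hT hT2 hs (fun a c hac _ _ => hlen a c hac)
          (fun a c e' hac hae hce _ _ _ => by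
            have h5 := (hN a c e' hac hae hce).1
            rw [hκ a (f9 a c hac).1] at h5
            exact h5) v w _ hw h1 h2 hvT hwT hzT
        rcases h4 with h4 | h4 | h4
        · exact absurd h4.1 (by norm_num)
        · have h5 := h4.2.1
          rw [pt_flip2 v0 s b t (Ne.symm hkj), ← hj, ← hvt]
          exact h5
        · exact absurd h4 (by norm_num)
    have heq : Finset.univ.image (fun k => pt v0 s b (flip k (flip j t))) = Xw := by
      apply Finset.eq_of_subset_of_card_le hsub
      rw [hXw, Finset.card_image_of_injective _ hinj]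
      simp
    intro z
    rw [← hXwm z, ← heq, Finset.mem_image]
    constructor
    · rintro ⟨k, -, h⟩
      exact ⟨k, h.symm⟩
    · rintro ⟨k, h⟩
      exact ⟨k, Finset.mem_univ k, h.symm⟩
  have hall : ∀ v, Vx P v → v ∈ A :=
    hC (d + 4) P hP A ⟨v0, hA0, hv0⟩ fun v hv w _ hw => hstep v hv w hw
  have hconv : ∀ I : Finset (Fin (d + 5)), pt v0 s b (fun i => decide (i ∈ I)) ∈ A := by
    intro I
    induction I using Finset.induction_on with
    | empty =>
      have h0 : pt v0 s b (fun i => decide (i ∈ (∅ : Finset (Fin (d + 5))))) = v0 := by simp [pt]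
      rw [h0]
      exact hA0
    | insert a I ha ih =>
      obtain ⟨t, h1, h2, h3⟩ := ih
      have h4 := hpinj h1
      apply hstep _ ⟨t, h1, h2, h3⟩
      rw [h3]
      refine ⟨a, ?_⟩
      rw [← h4]
      congr 1
      funext i
      unfold flip
      by_cases hia : i = a
      · subst hia
        simp [ha]
      · simp [hia]
  have hvx : {v | Vx P v ∧ v ∈ P} = range (pt v0 s b) := by
    ext v
    constructor
    · rintro ⟨h1, -⟩
      obtain ⟨t, h2, -⟩ := hall v h1
      exact ⟨t, h2.symm⟩
    · rintro ⟨t, rfl⟩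
      have h1 : (fun i => decide (i ∈ Finset.univ.filter fun i => t i = true)) = t := by
        funext i
        simp
      have h2 := hconv (Finset.univ.filter fun i => t i = true)
      rw [h1] at h2
      obtain ⟨_, _, h3, _⟩ := h2
      exact ⟨h3, h3.2.subset (mem_singleton _)⟩
  refine ⟨v0 + (s / 2) • ∑ j, b j, s / 2, b, by linarith, ?_⟩
  rw [← cube v0 s hs b, ← hvx]
  exact (f1 P hPP).2

end Pool.Agent.T9h31.NK
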