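import Pool.Agent.T9h44.NK.Abs4

/-!
# Project NK, piece X4 (helper31)
-/

set_option autoImplicit false

open Set
open scoped RealInnerProductSpace

namespace Pool.Agent.T9h31.NK

open Pool.Agent.T9h98.DC Pool.Agent.T9h44.NK

theorem x4 (h1 : S_X1) (h2 : S_X2) : S_X4 := by
  classical
  intro m q X hq0 hq1 hX hN x hx z hz
  obtain ⟨c1, c2, c3, c4⟩ := h1 m q X hq0 hq1 hX x hx
  have hn : ‖x‖ = 1 := hX.1 x hx
  have hzX : z ∈ X := by
    unfold AA at hz
    exact (Finset.mem_filter.1 hz).1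
  have hzq : ⟪x, z⟫ = q := by
    unfold AA at hz
    exact (Finset.mem_filter.1 hz).2.2
  have hzn : ‖z‖ = 1 := hX.1 z hzX
  have hcs : (1 + ((AA q X x).card : ℝ) * q) ^ 2 ≤ ‖∑ u ∈ UU q X x, u‖ ^ 2 := by
    have h := abs_real_inner_le_norm x (∑ u ∈ UU q X x, u)
    rw [c3, hn, one_mul, abs_neg] at h
    rw [← sq_abs (1 + ((AA q X x).card : ℝ) * q)]
    exact pow_le_pow_left₀ (abs_nonneg _) h 2
  obtain ⟨e1, e2, e3, e4, e5, e6⟩ := h2 _ _ (ee q X x) _ q hN hq0 hq1 c1 c2 (hcs.trans c4)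
  have hb : (101 : ℝ) ≤ ((UU q X x).card : ℝ) := by exact_mod_cast e1
  have he : (0 : ℝ) ≤ (ee q X x : ℝ) := Nat.cast_nonneg _
  -- the products of `z` with the far vectors of `x`
  have key : ⟪z, ∑ u ∈ UU q X x, u⟫ ≤
      ((UU q X x).card : ℝ) * q + (dd q X x z : ℝ) * (q - 1) := by
    rw [inner_sum]
    have hle : ∀ u ∈ UU q X x, ⟪z, u⟫ ≤ q + (if u ∈ UU q X z then (q - 1) else 0) := by
      intro u hu
      have hu' := hu
      unfold UU at hu'
      obtain ⟨huX, hux, hxu⟩ := Finset.mem_filter.1 hu'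
      have huz : u ≠ z := by
        rintro rfl
        rw [hzq] at hxu
        linarith
      rcases hX.2.1 z hzX u huX huz.symm with h | h
      · rw [h]
        split_ifs with hmem
        · exfalso
          unfold UU at hmem
          have := (Finset.mem_filter.1 hmem).2.2
          linarith
        · linarith
      · have hmem : u ∈ UU q X z := by
          unfold UU
          exact Finset.mem_filter.2 ⟨huX, huz, h⟩
        rw [if_pos hmem]
        linarith
    refine (Finset.sum_le_sum hle).trans (le_of_eq ?_)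
    rw [Finset.sum_add_distrib, Finset.sum_const, nsmul_eq_mul, Finset.sum_ite_mem,
      Finset.sum_const, nsmul_eq_mul]
    unfold dd
    rw [Finset.inter_comm]
  generalize hbb : ((UU q X x).card : ℝ) = b at *
  generalize hdd : (dd q X x z : ℝ) = d at *
  generalize htt : 1 + ((AA q X x).card : ℝ) * q = t at *
  generalize hss : ∑ u ∈ UU q X x, u = s at *
  have ht0 : 0 ≤ b * (1 - 2 * q) := mul_nonneg (by linarith) (by linarith)
  have ht2 : (b * (1 - 2 * q)) ^ 2 ≤ t ^ 2 := pow_le_pow_left₀ ht0 c2 2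
  have hst : ‖s + t • x‖ ^ 2 ≤ b := by
    have h3 : ‖s + t • x‖ ^ 2 = ‖s‖ ^ 2 - t ^ 2 := by
      rw [norm_add_sq_real, real_inner_smul_right, real_inner_comm, c3, norm_smul, hn, mul_one,
        Real.norm_eq_abs, sq_abs]
      ring
    rw [h3]
    have h4 : b * (1 - q) + b ^ 2 * q - (b * (1 - 2 * q)) ^ 2 =
        b * (1 - q) - b ^ 2 * ((1 - q) * (1 - 4 * q)) := by ring
    have h5 : 0 ≤ b ^ 2 * ((1 - q) * (1 - 4 * q)) :=
      mul_nonneg (sq_nonneg _) (mul_nonneg (by linarith) (by linarith))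
    have h6 : 0 ≤ (ee q X x : ℝ) * (1 - q) := mul_nonneg he (by linarith)
    have h7 : 0 ≤ b * q := mul_nonneg (by linarith) hq0.le
    nlinarith
  have hst' : ‖s + t • x‖ ≤ √b := by
    exact Real.le_sqrt_of_sq_le hst
  have hzs : -√b ≤ ⟪z, s + t • x⟫ := by
    have h := abs_real_inner_le_norm z (s + t • x)
    rw [hzn, one_mul] at h
    have h' := (abs_le.1 (h.trans hst')).1
    exact h'
  rw [inner_add_right, real_inner_smul_right, real_inner_comm, real_inner_comm x z, hzq] at hzs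
  rw [real_inner_comm] at key
  have hsq : √b ≤ b / 10 := by
    rw [Real.sqrt_le_iff]
    constructor
    · linarith
    · nlinarith
  by_contra hcon
  push Not at hcon
  have h8 : d * (1 - q) ≤ b * q + t * q + √b := by nlinarith
  have h9 : 0.64 * b * (1 - q) ≤ d * (1 - q) := mul_le_mul_of_nonneg_right hcon.le (by linarith)
  have h10 : t * q ≤ (b / 2 + 3 / 4) * q := mul_le_mul_of_nonneg_right e6 hq0.le
  nlinarith

end Pool.Agent.T9h31.NK
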